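import Pool.Agent.Lib.MP_b21ca1_al.Defs

/-!
# Radically closed fields: elliptic curves, solvable covers, plane curves of low degree

`K` is an infinite radically closed field (its multiplicative group is divisible).

* `elliptic_inf`: every elliptic curve over `K` has infinitely many `K`-points, in every
  characteristic. In characteristic 2 (where `K` need not be closed under Artin-Schreier
  extensions) the points come from an explicit formula with one cube root.
* `RadClosed.splits_map_of_lc`: specialisations of polynomials with solvable (tame) Galois group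
  split over `K`; `dense_of_root`: hence the `K`-points of `F (t, x) = 0` are Zariski dense.
* `plane_inf`: plane curves of degree at most 5 with a nonsingular `K`-point.
-/

namespace MPb21ca1

open Polynomial
open scoped commutatorElement



section roots

variable {K : Type*} [Field K]

theorem RadClosed.root (h : RadClosed K) (a : K) {n : ℕ} (hn : 1 ≤ n) : ∃ x : K, x ^ n = a := by
  by_cases ha : a = 0
  · exact ⟨0, by rw [ha, zero_pow (by omega)]⟩
  · exact h a ha n hn

theorem RadClosed.quad (h : RadClosed K) (h2 : (2 : K) ≠ 0) (b c : K) :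
    ∃ x : K, x ^ 2 + b * x + c = 0 := by
  obtain ⟨s, hs⟩ := h.root (b ^ 2 / 4 - c) (n := 2) (by norm_num)
  refine ⟨s - b / 2, ?_⟩
  have h4 : (4 : K) ≠ 0 := by
    have : (4 : K) = 2 * 2 := by norm_num
    rw [this]; exact mul_ne_zero h2 h2
  have hs' : 4 * s ^ 2 = b ^ 2 - 4 * c := by
    rw [hs]; field_simp
  have e : b = 2 * (b / 2) := by field_simp
  generalize b / 2 = t at e ⊢
  subst e
  have : 4 * ((s - t) ^ 2 + 2 * t * (s - t) + c) = 0 := by linear_combination hs'
  exact (mul_eq_zero.mp this).resolve_left h4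

theorem RadClosed.cubd (h : RadClosed K) (h2 : (2 : K) ≠ 0) (h3 : (3 : K) ≠ 0) (p q : K) :
    ∃ y : K, y ^ 3 + p * y + q = 0 := by
  by_cases hp : p = 0
  · obtain ⟨y, hy⟩ := h.root (-q) (n := 3) (by norm_num)
    exact ⟨y, by rw [hy, hp]; ring⟩
  · obtain ⟨z, hz⟩ := h.quad h2 q (-(p / 3) ^ 3)
    have hz0 : z ≠ 0 := by
      rintro rfl
      have : (p / 3) ^ 3 = 0 := by linear_combination -hz
      have := pow_eq_zero_iff (n := 3) (by norm_num) |>.mp this
      rcases div_eq_zero_iff.mp this with h' | h'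
      · exact hp h'
      · exact h3 h'
    obtain ⟨u, hu⟩ := h.root z (n := 3) (by norm_num)
    have hu0 : u ≠ 0 := by
      rintro rfl
      apply hz0
      rw [← hu]; norm_num
    obtain ⟨t, ht⟩ : ∃ t, p = 3 * t := ⟨p / 3, by field_simp⟩
    have htt : p / 3 = t := by rw [ht]; field_simp
    rw [htt] at hz
    refine ⟨u - t / u, ?_⟩
    subst ht
    field_simp
    rw [← hu] at hz
    linear_combination hz

theorem RadClosed.cub (h : RadClosed K) (h2 : (2 : K) ≠ 0) (h3 : (3 : K) ≠ 0) (a b c : K) :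
    ∃ x : K, x ^ 3 + a * x ^ 2 + b * x + c = 0 := by
  obtain ⟨t, ht⟩ : ∃ t, a = 3 * t := ⟨a / 3, by field_simp⟩
  obtain ⟨y, hy⟩ := h.cubd h2 h3 (b - 3 * t ^ 2) (2 * t ^ 3 - t * b + c)
  refine ⟨y - t, ?_⟩
  subst ht
  linear_combination hy

theorem RadClosed.quard (h : RadClosed K) (h2 : (2 : K) ≠ 0) (h3 : (3 : K) ≠ 0) (p q r : K) :
    ∃ y : K, y ^ 4 + p * y ^ 2 + q * y + r = 0 := by
  by_cases hq : q = 0
  · obtain ⟨w, hw⟩ := h.quad h2 p r
    obtain ⟨y, hy⟩ := h.root w (n := 2) (by norm_num)
    refine ⟨y, ?_⟩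
    rw [← hy] at hw
    rw [hq]
    linear_combination hw
  · obtain ⟨s, hs⟩ := h.cub h2 h3 (2 * p) (p ^ 2 - 4 * r) (-q ^ 2)
    have hs0 : s ≠ 0 := by
      rintro rfl
      have : q ^ 2 = 0 := by linear_combination -hs
      exact hq (pow_eq_zero_iff (n := 2) (by norm_num) |>.mp this)
    obtain ⟨α, hα⟩ := h.root s (n := 2) (by norm_num)
    have hα0 : α ≠ 0 := by
      rintro rfl
      apply hs0
      rw [← hα]; norm_num
    obtain ⟨y, hy⟩ := h.quad h2 α ((p + α ^ 2 - q / α) / 2)
    refine ⟨y, ?_⟩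
    rw [← hα] at hs
    obtain ⟨β, hβ⟩ : ∃ β, (p + α ^ 2 - q / α) / 2 = β := ⟨_, rfl⟩
    rw [hβ] at hy
    have hβ' : p * α + α ^ 3 - q = 2 * α * β := by
      rw [← hβ]; field_simp
    have hq' : q = p * α + α ^ 3 - 2 * α * β := by linear_combination -hβ'
    -- gamma = p + α² - β
    have hr : β * (p + α ^ 2 - β) = r := by
      have h4 : (4 : K) * α ^ 2 ≠ 0 := by
        have : (4 : K) = 2 * 2 := by norm_num
        rw [this]; exact mul_ne_zero (mul_ne_zero h2 h2) (pow_ne_zero _ hα0)
      apply mul_left_cancel₀ h4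
      subst hq'
      linear_combination hs
    subst hq'
    rw [← hr]
    linear_combination (y ^ 2 - α * y + (p + α ^ 2 - β)) * hy

theorem RadClosed.quar (h : RadClosed K) (h2 : (2 : K) ≠ 0) (h3 : (3 : K) ≠ 0) (a b c d : K) :
    ∃ x : K, x ^ 4 + a * x ^ 3 + b * x ^ 2 + c * x + d = 0 := by
  have h4 : (4 : K) ≠ 0 := by
    have : (4 : K) = 2 * 2 := by norm_num
    rw [this]; exact mul_ne_zero h2 h2
  obtain ⟨t, ht⟩ : ∃ t, a = 4 * t := ⟨a / 4, by field_simp⟩
  obtain ⟨y, hy⟩ := h.quard h2 h3 (b - 6 * t ^ 2) (8 * t ^ 3 - 2 * b * t + c)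
    (-3 * t ^ 4 + b * t ^ 2 - c * t + d)
  refine ⟨y - t, ?_⟩
  subst ht
  linear_combination hy

/-- Over a radically closed field of characteristic not 2, 3, every polynomial of degree
between 1 and 4 has a root; in characteristic 3, every polynomial of degree 1 or 2. -/
theorem RadClosed.exists_root (h : RadClosed K) (h2 : (2 : K) ≠ 0) (f : K[X])
    (h1 : 1 ≤ f.natDegree) (h4 : f.natDegree ≤ 4) (h3 : f.natDegree ≤ 2 ∨ (3 : K) ≠ 0) :
    ∃ x : K, f.eval x = 0 := by
  have hl : f.leadingCoeff ≠ 0 := by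
    rw [Ne, leadingCoeff_eq_zero]
    rintro rfl
    simp at h1
  have hev : ∀ x, f.eval x = ∑ i ∈ Finset.range (f.natDegree + 1), f.coeff i * x ^ i :=
    fun x => eval_eq_sum_range x
  rw [leadingCoeff] at hl
  generalize hn : f.natDegree = n at *
  have hcase : n = 1 ∨ n = 2 ∨ (n = 3 ∨ n = 4) := by omega
  rcases hcase with rfl | rfl | h34
  · refine ⟨- f.coeff 0 / f.coeff 1, ?_⟩
    rw [hev]
    simp [Finset.sum_range_succ]
    field_simp
    ring
  · obtain ⟨x, hx⟩ := h.quad h2 (f.coeff 1 / f.coeff 2) (f.coeff 0 / f.coeff 2)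
    refine ⟨x, ?_⟩
    rw [hev]
    simp [Finset.sum_range_succ]
    field_simp at hx
    linear_combination hx
  · have h3' : (3 : K) ≠ 0 := by
      rcases h3 with h' | h'
      · omega
      · exact h'
    rcases h34 with rfl | rfl
    · obtain ⟨x, hx⟩ := h.cub h2 h3' (f.coeff 2 / f.coeff 3) (f.coeff 1 / f.coeff 3)
        (f.coeff 0 / f.coeff 3)
      refine ⟨x, ?_⟩
      rw [hev]
      simp [Finset.sum_range_succ]
      field_simp at hx
      linear_combination hx
    · obtain ⟨x, hx⟩ := h.quar h2 h3' (f.coeff 3 / f.coeff 4) (f.coeff 2 / f.coeff 4)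
        (f.coeff 1 / f.coeff 4) (f.coeff 0 / f.coeff 4)
      refine ⟨x, ?_⟩
      rw [hev]
      simp [Finset.sum_range_succ]
      field_simp at hx
      linear_combination hx

end roots


section chartwo

variable {K : Type*} [Field K]

/-- The explicit point on an ordinary curve in characteristic 2. -/
theorem ord_point (h2 : (2 : K) = 0) (e d l a c : K)
    (he : e * d = 1 + (a + l ^ 2 + l))
    (hd : d ^ 3 = (a + l ^ 2 + l) + (a + l ^ 2 + l) ^ 2 + (a + l ^ 2 + l) ^ 3
      + (a + l ^ 2 + l) ^ 4 + c) :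
    (e ^ 3 + 1 + (a + l ^ 2 + l) + (a + l ^ 2 + l) ^ 2
        + l * ((a + l ^ 2 + l) + d + e + e ^ 2)) ^ 2
      + ((a + l ^ 2 + l) + d + e + e ^ 2)
        * (e ^ 3 + 1 + (a + l ^ 2 + l) + (a + l ^ 2 + l) ^ 2
        + l * ((a + l ^ 2 + l) + d + e + e ^ 2))
      = ((a + l ^ 2 + l) + d + e + e ^ 2) ^ 3
        + a * ((a + l ^ 2 + l) + d + e + e ^ 2) ^ 2 + c := by
  obtain ⟨A, hA⟩ : ∃ A, a + l ^ 2 + l = A := ⟨_, rfl⟩
  rw [hA] at he hd ⊢
  have hA' : A = e * d + 1 := by linear_combination -he - h2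
  have hc : c = d ^ 3 - (A + A ^ 2 + A ^ 3 + A ^ 4) := by linear_combination -hd
  have ha : a = A - l ^ 2 - l := by linear_combination hA
  rw [ha, hc, hA']
  linear_combination (7 - d + 10*d*e + 10*d*e*l + 4*d*e*l^2 - 9*d*e^2 + 7*d*e^2*l + 4*d*e^2*l^2 - 8*d*e^3 + 6*d*e^3*l + 2*d*e^3*l^2 - 2*d*e^4 + d*e^4*l - 2*d*e^5 + 5*d*l + 2*d*l^2 - 2*d^2 - 5*d^2*e + 5*d^2*e*l + 2*d^2*e*l^2 + 6*d^2*e^2 + 5*d^2*e^2*l + d^2*e^2*l^2 - 6*d^2*e^3 + d^2*e^3*l - 2*d^2*e^4 + d^2*e^4*l + d^2*e^5 + d^2*l + d^2*l^2 - d^3 - 2*d^3*e - 2*d^3*e^2 + d^3*e^2*l + 5*d^3*e^3 + d^3*e^3*l + d^4*e^4 - e + 5*e*l + 2*e*l^2 - 3*e^2 + 6*e^2*l + 3*e^2*l^2 - e^3 + 3*e^3*l + 2*e^3*l^2 - 3*e^4 + 2*e^4*l + e^4*l^2 - e^5 + e^5*l + 4*l + l^2) * h2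

/-- Finitely many bad parameters: if every parameter outside the roots of `DP` yields a solution
`p ∈ S` for which the parameter is a root of a nonzero polynomial `G p`, then `S` is infinite. -/
theorem infinite_of_param [Infinite K] {P : Type*} (S : Set P) (DP : K[X]) (hDP : DP ≠ 0)
    (G : P → K[X]) (hG : ∀ p, G p ≠ 0)
    (H : ∀ l : K, DP.eval l ≠ 0 → ∃ p ∈ S, (G p).eval l = 0) : S.Infinite := by
  intro hS
  have hfin : (Set.univ : Set K).Finite := by
    refine Set.Finite.subset ((finite_setOfPred_isRoot hDP).union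
      (hS.biUnion (fun p _ => finite_setOfPred_isRoot (hG p)))) ?_
    intro l _
    by_cases hl : DP.eval l = 0
    · exact Or.inl hl
    · obtain ⟨p, hp, hz⟩ := H l hl
      exact Or.inr (Set.mem_biUnion hp hz)
  exact Set.infinite_univ hfin

theorem ord_inf [Infinite K] (h : RadClosed K) (h2 : (2 : K) = 0) (a c : K) :
    {p : K × K | p.2 ^ 2 + p.1 * p.2 = p.1 ^ 3 + a * p.1 ^ 2 + c}.Infinite := by
  set A : K[X] := C a + X ^ 2 + X with hA
  have hmA : A.Monic := by rw [hA]; monicity!
  have hdA : A.natDegree = 2 := by rw [hA]; compute_degree!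
  set DP : K[X] := A + A ^ 2 + A ^ 3 + A ^ 4 + C c with hDP
  have hAe : ∀ l, A.eval l = a + l ^ 2 + l := fun l => by simp [hA]
  have hDe : ∀ l, DP.eval l = (a + l ^ 2 + l) + (a + l ^ 2 + l) ^ 2 + (a + l ^ 2 + l) ^ 3
      + (a + l ^ 2 + l) ^ 4 + c := fun l => by simp [hDP, hAe]
  have hD0 : DP ≠ 0 := by
    intro h0
    have : DP.coeff 8 = 1 := by
      rw [hDP, hA]
      compute_degree!
    rw [h0] at this
    simp at this
  refine infinite_of_param _ DP hD0
    (fun p => (1 + A + A ^ 2 + C p.2 + X * C p.1) * DP + (1 + A) ^ 3) ?_ ?_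
  · intro p h0
    have : ((1 + A + A ^ 2 + C p.2 + X * C p.1) * DP + (1 + A) ^ 3).coeff 12 = 1 := by
      rw [hDP, hA]
      compute_degree!
    rw [h0] at this
    simp at this
  · intro l hl
    rw [hDe] at hl
    obtain ⟨d, hd⟩ := h.root ((a + l ^ 2 + l) + (a + l ^ 2 + l) ^ 2 + (a + l ^ 2 + l) ^ 3
      + (a + l ^ 2 + l) ^ 4 + c) (n := 3) (by norm_num)
    have hd0 : d ≠ 0 := by
      rintro rfl
      apply hl
      rw [← hd]; norm_num
    obtain ⟨e, he⟩ : ∃ e, e * d = 1 + (a + l ^ 2 + l) :=
      ⟨(1 + (a + l ^ 2 + l)) / d, by field_simp⟩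
    refine ⟨((a + l ^ 2 + l) + d + e + e ^ 2, e ^ 3 + 1 + (a + l ^ 2 + l) + (a + l ^ 2 + l) ^ 2
        + l * ((a + l ^ 2 + l) + d + e + e ^ 2)), ord_point h2 e d l a c he hd, ?_⟩
    simp only [eval_add, eval_mul, eval_pow, eval_one, eval_C, eval_X, hAe, hDe]
    rw [← hd, ← he]
    linear_combination (e ^ 3 * d ^ 3 + (1 + (a + l ^ 2 + l) + (a + l ^ 2 + l) ^ 2
      + l * ((a + l ^ 2 + l) + d + e + e ^ 2)) * d ^ 3) * h2 + d ^ 3 * he

theorem ss_inf0 [Infinite K] (h : RadClosed K) (h2 : (2 : K) = 0) (a3 a4 a6 : K) (h3 : a3 ≠ 0) :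
    {p : K × K | p.2 ^ 2 + a3 * p.2 = p.1 ^ 3 + a4 * p.1 + a6}.Infinite := by
  obtain ⟨g, hg⟩ : ∃ g, a3 ^ 2 * g = a6 := ⟨a6 / a3 ^ 2, by field_simp⟩
  obtain ⟨b, hb⟩ : ∃ b, a3 ^ 4 * b = a4 ^ 3 := ⟨a4 ^ 3 / a3 ^ 4, by field_simp⟩
  have hT := ord_inf h h2 g (b ^ 2)
  intro hS
  apply hT
  -- the fibre over q
  have hfib : ∀ q : K × K, {p : K × K | p.1 ^ 2 + b = (q.2 ^ 2 / a3 ^ 2
      + q.2 / a3 + g) * p.1 ∧ p.2 + b = q.2 / a3 * p.1}.Finite := by
    intro q
    set m : K := q.2 ^ 2 / a3 ^ 2 + q.2 / a3 + g with hm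
    have hne : (X ^ 2 - C m * X + C b : K[X]) ≠ 0 := by
      intro h0
      have : (X ^ 2 - C m * X + C b : K[X]).coeff 2 = 1 := by compute_degree!
      rw [h0] at this
      simp at this
    refine Set.Finite.subset ((finite_setOfPred_isRoot hne).image
      (fun x => (x, q.2 / a3 * x - b))) ?_
    rintro ⟨x, y⟩ ⟨h1, h1'⟩
    refine ⟨x, ?_, ?_⟩
    · change eval x (X ^ 2 - C m * X + C b : K[X]) = 0
      simp only [eval_add, eval_sub, eval_mul, eval_pow, eval_C, eval_X]
      simp only at h1
      linear_combination h1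
    · simp only at h1'
      simp only [Prod.mk.injEq, true_and]
      linear_combination -h1'
  have h0fib : {p : K × K | p.1 = 0 ∧ p.2 ^ 2 = b ^ 2}.Finite := by
    refine Set.Finite.subset (Set.finite_singleton ((0 : K), b)) ?_
    rintro ⟨x, y⟩ ⟨h1, h1'⟩
    simp only at h1 h1'
    have : (y - b) ^ 2 = 0 := by linear_combination h1' + (b ^ 2 - b * y) * h2
    have := pow_eq_zero_iff (n := 2) (by norm_num) |>.mp this
    rw [Set.mem_singleton_iff, h1, sub_eq_zero.mp this]
  refine Set.Finite.subset (h0fib.union (hS.biUnion (fun q _ => hfib q))) ?_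
  rintro ⟨x, y⟩ hxy
  change y ^ 2 + x * y = x ^ 3 + g * x ^ 2 + b ^ 2 at hxy
  by_cases hx : x = 0
  · left
    refine ⟨hx, ?_⟩
    rw [hx] at hxy
    simp only
    linear_combination hxy
  · right
    obtain ⟨w, hw⟩ : ∃ w, w * x = y + b := ⟨(y + b) / x, by field_simp⟩
    -- w^2 + w + g = x + b/x
    have hww : x ^ 2 + b = (w ^ 2 + w + g) * x := by
      have hy : y = w * x - b := by linear_combination -hw
      apply mul_left_cancel₀ hx
      rw [hy] at hxy
      linear_combination -hxy + (-(w * x * b) - g * x ^ 2) * h2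
    obtain ⟨u, hu⟩ := h.root (a3 ^ 2 * x) (n := 3) (by norm_num)
    have hu0 : u ≠ 0 := by
      rintro rfl
      have : a3 ^ 2 * x = 0 := by rw [← hu]; norm_num
      rcases mul_eq_zero.mp this with h' | h'
      · exact h3 (pow_eq_zero_iff (n := 2) (by norm_num) |>.mp h')
      · exact hx h'
    obtain ⟨v, hv⟩ : ∃ v, u * v = a4 := ⟨a4 / u, by field_simp⟩
    have hv3 : v ^ 3 * x = a3 ^ 2 * b := by
      have h2' : a3 ^ 2 ≠ 0 := pow_ne_zero 2 h3
      apply mul_left_cancel₀ h2'
      have : (u * v) ^ 3 = a4 ^ 3 := by rw [hv]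
      linear_combination this + hb * (-1) - v ^ 3 * hu
    have huv : u ^ 3 + v ^ 3 = a3 ^ 2 * (w ^ 2 + w + g) := by
      apply mul_left_cancel₀ hx
      linear_combination x * hu + hv3 + a3 ^ 2 * hww
    refine Set.mem_biUnion (x := (u + v, a3 * w)) ?_ ?_
    · change (a3 * w) ^ 2 + a3 * (a3 * w) = (u + v) ^ 3 + a4 * (u + v) + a6
      rw [← hg, ← hv]
      linear_combination -huv + (- a3^2*g - 2*u*v^2 - 2*u^2*v) * h2
    · constructor
      · change x ^ 2 + b = ((a3 * w) ^ 2 / a3 ^ 2 + (a3 * w) / a3 + g) * x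
        rw [hww]
        field_simp
      · change y + b = (a3 * w) / a3 * x
        rw [← hw]
        field_simp

theorem ss_inf [Infinite K] (h : RadClosed K) (h2 : (2 : K) = 0) (a2 a3 a4 a6 : K)
    (h3 : a3 ≠ 0) :
    {p : K × K | p.2 ^ 2 + a3 * p.2 = p.1 ^ 3 + a2 * p.1 ^ 2 + a4 * p.1 + a6}.Infinite := by
  have hT := ss_inf0 h h2 a3 (a4 - a2 ^ 2) (a6 - a2 ^ 3 - (a4 - a2 ^ 2) * a2) h3
  intro hS
  apply hT
  refine Set.Finite.subset (hS.image (fun p => (p.1 + a2, p.2))) ?_
  rintro ⟨x, y⟩ hxy
  change y ^ 2 + a3 * y = x ^ 3 + (a4 - a2 ^ 2) * x + (a6 - a2 ^ 3 - (a4 - a2 ^ 2) * a2) at hxy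
  refine ⟨(x - a2, y), ?_, by simp⟩
  change y ^ 2 + a3 * y = (x - a2) ^ 3 + a2 * (x - a2) ^ 2 + a4 * (x - a2) + a6
  linear_combination hxy + (a2*x^2 - a2^2*x) * h2

end chartwo

section elliptic

variable {K : Type*} [Field K]

theorem inf_of_set (W : WeierstrassCurve K) [W.IsElliptic] (S : Set (K × K)) (hS : S.Infinite)
    (hE : ∀ p ∈ S, p.2 ^ 2 + W.a₁ * p.1 * p.2 + W.a₃ * p.2
      = p.1 ^ 3 + W.a₂ * p.1 ^ 2 + W.a₄ * p.1 + W.a₆) : Infinite W.toAffine.Point := by
  have := hS.to_subtype
  refine Infinite.of_injective (fun p : S => WeierstrassCurve.Affine.Point.some p.1.1 p.1.2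
    (W.toAffine.equation_iff_nonsingular.mp ((W.toAffine.equation_iff _ _).mpr
      (hE p.1 p.2)))) ?_
  intro p q h
  simp only [WeierstrassCurve.Affine.Point.some.injEq] at h
  exact Subtype.ext (Prod.ext h.1 h.2)

theorem elliptic_inf [Infinite K] (hK : RadClosed K) (W : WeierstrassCurve K) [W.IsElliptic] :
    Infinite W.toAffine.Point := by
  by_cases h2 : (2 : K) = 0
  · by_cases h1 : W.a₁ = 0
    · have h3 : W.a₃ ≠ 0 := by
        intro h3
        have hΔ : W.Δ = 0 := by
          have e4 : (4 : K) = 0 := by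
            have : (4 : K) = 2 * 2 := by norm_num
            rw [this, h2, mul_zero]
          simp [WeierstrassCurve.Δ, WeierstrassCurve.b₂, WeierstrassCurve.b₄,
            WeierstrassCurve.b₆, WeierstrassCurve.b₈, h1, h3, e4, h2]
        exact (W.coe_Δ' ▸ W.Δ'.ne_zero : W.Δ ≠ 0) hΔ
      refine inf_of_set W _ (ss_inf hK h2 W.a₂ W.a₃ W.a₄ W.a₆ h3) ?_
      intro p hp
      have hp' : p.2 ^ 2 + W.a₃ * p.2 = p.1 ^ 3 + W.a₂ * p.1 ^ 2 + W.a₄ * p.1 + W.a₆ := hp
      rw [h1]
      linear_combination hp'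
    · obtain ⟨r, hr⟩ : ∃ r, r * W.a₁ = W.a₃ := ⟨W.a₃ / W.a₁, by field_simp⟩
      obtain ⟨s, hs⟩ : ∃ s, s * W.a₁ = r ^ 2 + W.a₄ := ⟨(r ^ 2 + W.a₄) / W.a₁, by field_simp⟩
      obtain ⟨a, ha⟩ : ∃ a, a * W.a₁ ^ 2 = r + W.a₂ := ⟨(r + W.a₂) / W.a₁ ^ 2, by field_simp⟩
      obtain ⟨c, hc⟩ : ∃ c, c * W.a₁ ^ 6 = r ^ 3 + W.a₂ * r ^ 2 + W.a₄ * r + W.a₆ + s ^ 2 :=
        ⟨(r ^ 3 + W.a₂ * r ^ 2 + W.a₄ * r + W.a₆ + s ^ 2) / W.a₁ ^ 6, by field_simp⟩
      have hT := ord_inf hK h2 a c
      have hS : {p : K × K | p.2 ^ 2 + W.a₁ * p.1 * p.2 + W.a₃ * p.2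
          = p.1 ^ 3 + W.a₂ * p.1 ^ 2 + W.a₄ * p.1 + W.a₆}.Infinite := by
        intro hS
        apply hT
        refine (hS.image (fun p => ((p.1 - r) / W.a₁ ^ 2, (p.2 - s) / W.a₁ ^ 3))).subset ?_
        rintro ⟨x, y⟩ hxy
        change y ^ 2 + x * y = x ^ 3 + a * x ^ 2 + c at hxy
        refine ⟨(W.a₁ ^ 2 * x + r, W.a₁ ^ 3 * y + s), ?_, ?_⟩
        · change (W.a₁ ^ 3 * y + s) ^ 2 + W.a₁ * (W.a₁ ^ 2 * x + r) * (W.a₁ ^ 3 * y + s)
            + W.a₃ * (W.a₁ ^ 3 * y + s) = (W.a₁ ^ 2 * x + r) ^ 3
            + W.a₂ * (W.a₁ ^ 2 * x + r) ^ 2 + W.a₄ * (W.a₁ ^ 2 * x + r) + W.a₆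
          generalize W.a₁ = u at *
          have h3 : W.a₃ = r * u := hr.symm
          have h4 : W.a₄ = s * u - r ^ 2 := by linear_combination -hs
          have h2' : W.a₂ = a * u ^ 2 - r := by linear_combination -ha
          have h6 : W.a₆ = c * u ^ 6 - (r ^ 3 + W.a₂ * r ^ 2 + W.a₄ * r + s ^ 2) := by
            linear_combination -hc
          rw [h6, h3, h4, h2']
          linear_combination u ^ 6 * hxy + (- a*r*u^4*x + r*s*u - r*u^4*x^2 + r*u^4*y + s*u^3*y + s^2) * h2
        · simp only [Prod.mk.injEq]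
          constructor <;> field_simp <;> ring
      exact inf_of_set W _ hS (fun p hp => hp)
  · have hex : ∀ x : K, ∃ y : K, y ^ 2 + (W.a₁ * x + W.a₃) * y
        + -(x ^ 3 + W.a₂ * x ^ 2 + W.a₄ * x + W.a₆) = 0 := fun x => hK.quad h2 _ _
    choose y hy using hex
    refine inf_of_set W {p : K × K | p.2 ^ 2 + W.a₁ * p.1 * p.2 + W.a₃ * p.2
          = p.1 ^ 3 + W.a₂ * p.1 ^ 2 + W.a₄ * p.1 + W.a₆} ?_ (fun p hp => hp)
    refine Set.infinite_of_injective_forall_mem (f := fun x : K => (x, y x)) ?_ ?_
    · intro x x' h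
      exact congrArg Prod.fst h
    · intro x
      change (y x) ^ 2 + W.a₁ * x * (y x) + W.a₃ * (y x)
          = x ^ 3 + W.a₂ * x ^ 2 + W.a₄ * x + W.a₆
      linear_combination hy x

end elliptic

section plane

open MvPolynomial in
theorem ev_aeval {K : Type*} [Field K] (g : Fin 2 → K[X]) (f : MvPolynomial (Fin 2) K) (t : K) :
    (MvPolynomial.aeval g f).eval t = MvPolynomial.eval (fun i => (g i).eval t) f := by
  induction f using MvPolynomial.induction_on with
  | C a => simp
  | add p q hp hq => simp [hp, hq]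
  | mul_X p i hp => simp [hp]

open MvPolynomial in
theorem der_aeval {K : Type*} [Field K] (g : Fin 2 → K[X]) (f : MvPolynomial (Fin 2) K) :
    Polynomial.derivative (MvPolynomial.aeval g f) =
      Polynomial.derivative (g 0) * MvPolynomial.aeval g (pderiv 0 f)
      + Polynomial.derivative (g 1) * MvPolynomial.aeval g (pderiv 1 f) := by
  induction f using MvPolynomial.induction_on with
  | C a => simp
  | add p q hp hq => simp [hp, hq]; ring
  | mul_X p i hp =>
    simp only [map_mul, MvPolynomial.aeval_X, Polynomial.derivative_mul, hp, Derivation.leibniz,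
      smul_eq_mul, MvPolynomial.pderiv_X, map_add]
    fin_cases i <;> simp <;> ring

theorem plane_inf {K : Type*} [Field K] [Infinite K] (hK : RadClosed K)
    (h2 : (2 : K) ≠ 0) (f : MvPolynomial (Fin 2) K) (hdeg : f.totalDegree ≤ 5)
    (h3 : f.totalDegree ≤ 3 ∨ (3 : K) ≠ 0) (P : Fin 2 → K) (hP : MvPolynomial.eval P f = 0)
    (hsm : MvPolynomial.eval P (MvPolynomial.pderiv 0 f) ≠ 0 ∨
      MvPolynomial.eval P (MvPolynomial.pderiv 1 f) ≠ 0) :
    {Q : Fin 2 → K | MvPolynomial.eval Q f = 0}.Infinite := by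
  intro hZ
  obtain ⟨a, ha⟩ : ∃ a, MvPolynomial.eval P (MvPolynomial.pderiv 0 f) = a := ⟨_, rfl⟩
  obtain ⟨b, hb⟩ : ∃ b, MvPolynomial.eval P (MvPolynomial.pderiv 1 f) = b := ⟨_, rfl⟩
  rw [ha, hb] at hsm
  have hPv : P = ![P 0, P 1] := by ext i; fin_cases i <;> rfl
  -- the finite set of bad slopes
  let Bad : Set K := {m | (C a + X * C b : K[X]).IsRoot m} ∪
    (fun Q : Fin 2 → K => (Q 1 - P 1) / (Q 0 - P 0)) '' {Q | MvPolynomial.eval Q f = 0}
  have hab : (C a + X * C b : K[X]) ≠ 0 := by
    intro h0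
    have e0 := congrArg (fun p => Polynomial.coeff p 0) h0
    have e1 := congrArg (fun p => Polynomial.coeff p 1) h0
    simp at e0 e1
    rcases hsm with h | h
    · exact h e0
    · exact h e1
  have hBad : Bad.Finite := (finite_setOfPred_isRoot hab).union (hZ.image _)
  have hlin : ∀ m, m ∉ Bad → ∀ t, MvPolynomial.eval ![P 0 + t, P 1 + m * t] f = (a + m * b) * t := by
    intro m hm
    let g : Fin 2 → K[X] := ![C (P 0) + X, C (P 1) + C m * X]
    have hge : ∀ t, (MvPolynomial.aeval g f).eval t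
        = MvPolynomial.eval ![P 0 + t, P 1 + m * t] f := by
      intro t
      have e3 : (fun i => (g i).eval t) = ![P 0 + t, P 1 + m * t] := by
        ext i
        fin_cases i <;> simp [g]
      rw [ev_aeval, e3]
    have hg0 : (MvPolynomial.aeval g f).eval 0 = 0 := by
      rw [hge]
      simp only [add_zero, mul_zero]
      rw [← hPv, hP]
    obtain ⟨h, hh⟩ : X ∣ MvPolynomial.aeval g f := by
      rw [X_dvd_iff, coeff_zero_eq_eval_zero, hg0]
    have hd : h.eval 0 = a + m * b := by
      have e1 := der_aeval g f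
      have e2 := congrArg (Polynomial.eval 0) e1
      rw [hh] at e2
      simp only [derivative_mul, derivative_X, eval_add, eval_mul, eval_X, eval_one, ev_aeval] at e2
      have e3 : (fun i => (g i).eval 0) = P := by
        ext i; fin_cases i <;> simp [g]
      rw [e3, ha, hb] at e2
      simp only [g, Matrix.cons_val_zero, Matrix.cons_val_one, derivative_add, derivative_C,
        derivative_X, derivative_mul, eval_add, eval_mul, eval_C, eval_zero, eval_one,
        eval_X] at e2
      linear_combination e2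
    have hd0 : a + m * b ≠ 0 := by
      intro h0
      apply hm
      left
      change (C a + X * C b : K[X]).eval m = 0
      simp only [eval_add, eval_mul, eval_C, eval_X]
      exact h0
    have hdegg : (MvPolynomial.aeval g f).natDegree ≤ f.totalDegree := by
      have := MvPolynomial.aeval_natDegree_le f le_rfl g (n := 1) (by
        intro i
        fin_cases i
        · change (C (P 0) + X : K[X]).natDegree ≤ 1
          compute_degree
        · change (C (P 1) + C m * X : K[X]).natDegree ≤ 1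
          compute_degree)
      simpa using this
    have hh0 : h ≠ 0 := by
      rintro rfl
      rw [eval_zero] at hd
      exact hd0 hd.symm
    have hdh : h.natDegree + 1 ≤ f.totalDegree := by
      rw [hh, natDegree_X_mul hh0] at hdegg
      exact hdegg
    by_cases hn : 1 ≤ h.natDegree
    · exfalso
      obtain ⟨t, ht⟩ := hK.exists_root h2 h hn (by omega) (by
        rcases h3 with h3 | h3
        · left; omega
        · right; exact h3)
      have ht0 : t ≠ 0 := by
        rintro rfl
        rw [ht] at hd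
        exact hd0 hd.symm
      apply hm
      right
      refine ⟨![P 0 + t, P 1 + m * t], ?_, ?_⟩
      · change MvPolynomial.eval _ f = 0
        rw [← hge, hh, eval_mul, ht, mul_zero]
      · simp
        field_simp
    · intro t
      have hc : h = C (h.coeff 0) := eq_C_of_natDegree_eq_zero (by omega)
      rw [← hge, hh, hc, eval_mul, eval_X, eval_C, coeff_zero_eq_eval_zero, hd]
      ring
  -- extend to all slopes
  have hlin1 : ∀ t, t ≠ 0 → ∀ u, MvPolynomial.eval ![P 0 + t, P 1 + u] f = a * t + b * u := by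
    intro t ht
    let g : Fin 2 → K[X] := ![C (P 0 + t), C (P 1) + X * C t]
    have h0 : MvPolynomial.aeval g f - (C a + X * C b) * C t = 0 := by
      by_contra hne
      have hfin := (finite_setOfPred_isRoot hne).union hBad
      apply Set.infinite_univ (α := K)
      refine hfin.subset ?_
      intro m _
      by_cases hm : m ∈ Bad
      · exact Or.inr hm
      · left
        change eval m _ = 0
        rw [eval_sub, ev_aeval]
        have e3 : (fun i => (g i).eval m) = ![P 0 + t, P 1 + m * t] := by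
          ext i
          fin_cases i
          · simp [g]
          · simp [g]; ring
        rw [e3, hlin m hm t]
        simp only [eval_mul, eval_add, eval_C, eval_X]
        ring
    intro u
    have h1 := congrArg (Polynomial.eval (u / t)) h0
    rw [eval_sub, ev_aeval] at h1
    have e3 : (fun i => (g i).eval (u / t)) = ![P 0 + t, P 1 + u] := by
      ext i
      fin_cases i
      · simp [g]
      · simp [g]; field_simp
    rw [e3] at h1
    simp only [eval_mul, eval_add, eval_C, eval_X, eval_zero] at h1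
    have h1' := sub_eq_zero.mp h1
    rw [h1']
    field_simp
  have hlin2 : ∀ s u, MvPolynomial.eval ![P 0 + s, P 1 + u] f = a * s + b * u := by
    intro s u
    let g : Fin 2 → K[X] := ![C (P 0) + X, C (P 1 + u)]
    have h0 : MvPolynomial.aeval g f - (C a * X + C (b * u)) = 0 := by
      by_contra hne
      have hfin := (finite_setOfPred_isRoot hne).union (Set.finite_singleton (0 : K))
      apply Set.infinite_univ (α := K)
      refine hfin.subset ?_
      intro m _
      by_cases hm : m = 0
      · exact Or.inr hm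
      · left
        change eval m _ = 0
        rw [eval_sub, ev_aeval]
        have e3 : (fun i => (g i).eval m) = ![P 0 + m, P 1 + u] := by
          ext i; fin_cases i <;> simp [g]
        rw [e3, hlin1 m hm u]
        simp
    have h1 := congrArg (Polynomial.eval s) h0
    rw [eval_sub, ev_aeval] at h1
    have e3 : (fun i => (g i).eval s) = ![P 0 + s, P 1 + u] := by
      ext i
      fin_cases i <;> simp [g]
    rw [e3] at h1
    simp only [eval_mul, eval_add, eval_C, eval_X, eval_zero] at h1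
    exact sub_eq_zero.mp h1
  -- the line
  have hinj : Function.Injective (fun r : K => (![P 0 + r * b, P 1 + -(r * a)] : Fin 2 → K)) := by
    intro r r' hr
    have e0 := congrFun hr 0
    have e1 := congrFun hr 1
    simp at e0 e1
    rcases hsm with h | h
    · rcases e1 with h' | h'
      · exact h'
      · exact absurd h' h
    · rcases e0 with h' | h'
      · exact h'
      · exact absurd h' h
  apply Set.infinite_range_of_injective hinj
  refine hZ.subset ?_
  rintro _ ⟨r, rfl⟩
  change MvPolynomial.eval _ f = 0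
  rw [hlin2]
  ring

end plane

section solvable

theorem exists_normal_prime (G : Type*) [Group G] [Finite G] [Nontrivial G]
    [Group.IsSolvable G] : ∃ N : Subgroup G, N.Normal ∧ N.index.Prime := by
  have hD : commutator G < ⊤ := Group.IsSolvable.commutator_lt_top_of_nontrivial G
  obtain h | ⟨M, hM, hDM⟩ := eq_top_or_exists_le_coatom (commutator G)
  · exact absurd h hD.ne
  have hn : M.Normal := by
    constructor
    intro g hg h
    have h1 : ⁅h, g⁆ ∈ commutator G :=
      Subgroup.commutator_mem_commutator (Subgroup.mem_top _) (Subgroup.mem_top _)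
    have h2 : h * g * h⁻¹ = ⁅h, g⁆ * g := by
      rw [commutatorElement_def]; group
    rw [h2]
    exact M.mul_mem (hDM h1) hg
  refine ⟨M, hn, ?_⟩
  have : Nontrivial (G ⧸ M) := QuotientGroup.nontrivial_iff.mpr hM.1
  have : IsSimpleGroup (G ⧸ M) := by
    refine ⟨fun H _ => ?_⟩
    have hle : M ≤ H.comap (QuotientGroup.mk' M) := by
      intro x hx
      rw [Subgroup.mem_comap]
      have : (QuotientGroup.mk' M) x = 1 := by
        simpa using (QuotientGroup.eq_one_iff x).mpr hx
      rw [this]; exact H.one_mem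
    rcases eq_or_lt_of_le hle with h | h
    · left
      have := congrArg (Subgroup.map (QuotientGroup.mk' M)) h
      rw [Subgroup.map_comap_eq_self_of_surjective (QuotientGroup.mk'_surjective M)] at this
      rw [← this, QuotientGroup.map_mk'_self]
    · right
      have h' := hM.2 _ h
      have := congrArg (Subgroup.map (QuotientGroup.mk' M)) h'
      rw [Subgroup.map_comap_eq_self_of_surjective (QuotientGroup.mk'_surjective M)] at this
      rw [this, Subgroup.map_top_of_surjective _ (QuotientGroup.mk'_surjective M)]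
  have hc : ∀ a b : G ⧸ M, a * b = b * a :=
    IsSimpleGroup.comm_iff_isSolvable.mpr inferInstance
  let : CommGroup (G ⧸ M) := { (inferInstance : Group (G ⧸ M)) with mul_comm := hc }
  have := IsSimpleGroup.prime_card (α := G ⧸ M)
  rwa [Subgroup.index]



open Module IntermediateField in
theorem RadClosed.finrank_eq_one_aux.{u} {K : Type u} [Field K] (hK : RadClosed K) (m : ℕ) :
    ∀ (E : Type u) [Field E] [Algebra K E] [FiniteDimensional K E] [IsGalois K E],
      Group.IsSolvable Gal(E/K) → Tame K (Nat.card Gal(E/K)) →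
      (∀ q : ℕ, q.Prime → q ∣ Nat.card Gal(E/K) → q < m) → finrank K E = 1 := by
  induction m with
  | zero =>
    intro E _ _ _ _ _ _ hm
    rw [← IsGalois.card_aut_eq_finrank]
    by_contra hne
    obtain ⟨q, hq, hd⟩ := Nat.exists_prime_and_dvd hne
    exact absurd (hm q hq hd) (Nat.not_lt_zero _)
  | succ m ih =>
    intro E _ _ _ _ hsol hchar hm
    by_contra hne
    rw [← IsGalois.card_aut_eq_finrank] at hne
    have hnt : Nontrivial Gal(E/K) := by
      rw [← Finite.one_lt_card_iff_nontrivial]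
      have : 0 < Nat.card Gal(E/K) := Nat.card_pos
      omega
    obtain ⟨N, hN, hℓ⟩ := exists_normal_prime Gal(E/K)
    set ℓ := N.index with hℓdef
    have hℓd : ℓ ∣ Nat.card Gal(E/K) := Subgroup.index_dvd_card N
    have hℓm : ℓ < m + 1 := hm ℓ hℓ hℓd
    have hζ : (primitiveRoots ℓ K).Nonempty := by
      rcases hchar ℓ hℓ hℓd with ⟨ζ, hz⟩ | hlow
      · exact ⟨ζ, (mem_primitiveRoots hℓ.pos).mpr hz⟩
      have hℓ0 : (ℓ : K) ≠ 0 := fun h0 => absurd (hlow ℓ hℓ h0) (lt_irrefl _)
      have : NeZero (ℓ : K) := ⟨hℓ0⟩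
      have : NeZero ℓ := ⟨hℓ.ne_zero⟩
      -- the cyclotomic field is trivial
      let C := CyclotomicField ℓ K
      have : IsGalois K C := IsCyclotomicExtension.isGalois {ℓ} K C
      have : FiniteDimensional K C := IsCyclotomicExtension.finiteDimensional {ℓ} K C
      obtain ⟨ζ, hz⟩ := IsCyclotomicExtension.exists_isPrimitiveRoot K C
        (Set.mem_singleton ℓ) hℓ.ne_zero
      have hinj := IsPrimitiveRoot.autToPow_injective (n := ℓ) K hz
      have hcd : Nat.card Gal(C/K) ∣ ℓ - 1 := by
        have h1 := Subgroup.card_dvd_of_injective (hz.autToPow K) hinj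
        have : Fact ℓ.Prime := ⟨hℓ⟩
        rwa [Nat.card_eq_fintype_card (α := (ZMod ℓ)ˣ), ZMod.card_units] at h1
      have hsC : Group.IsSolvable Gal(C/K) :=
        Group.isSolvable_of_isSolvable_injective hinj
      have hlt : ∀ q : ℕ, q.Prime → q ∣ Nat.card Gal(C/K) → q < ℓ := by
        intro q hq hd
        have := Nat.le_of_dvd (by have := hℓ.two_le; omega) (hd.trans hcd)
        have := hℓ.two_le
        omega
      have h1 : finrank K C = 1 := by
        refine ih C hsC ?_ ?_
        · intro q hq hd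
          exact Or.inr (fun p hp h0 => (hlt q hq hd).trans (hlow p hp h0))
        · intro q hq hd
          have := hlt q hq hd
          omega
      have htop : (⊥ : Subalgebra K C) = ⊤ := Subalgebra.bot_eq_top_of_finrank_eq_one h1
      have hmem : ζ ∈ (⊥ : Subalgebra K C) := by rw [htop]; exact Algebra.mem_top
      obtain ⟨z, hzz⟩ := Algebra.mem_bot.mp hmem
      refine ⟨z, ?_⟩
      rw [mem_primitiveRoots hℓ.pos]
      rw [← hzz] at hz
      exact (IsPrimitiveRoot.map_iff_of_injective (FaithfulSMul.algebraMap_injective K C)).mp hz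
    -- the cyclic extension of degree ℓ
    let M := fixedField N
    have hcard : Nat.card Gal(M/K) = ℓ := by
      rw [← Nat.card_congr (IsGalois.normalAutEquivQuotient N).toEquiv, hℓdef]
      rfl
    have hfr : finrank K M = ℓ := by
      rw [← hcard, IsGalois.card_aut_eq_finrank]
    have hcyc : IsCyclic Gal(M/K) := by
      have : Fact ℓ.Prime := ⟨hℓ⟩
      exact isCyclic_of_prime_card hcard
    have hζ' : (primitiveRoots (finrank K M) K).Nonempty := by rw [hfr]; exact hζ
    have htf := (isCyclic_tfae K M hζ').out 0 1 (by rfl) (by rfl)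
    obtain ⟨a, hirr, -⟩ := htf.mp ⟨inferInstance, hcyc⟩
    rw [hfr] at hirr
    obtain ⟨b, hb⟩ := hK.root a hℓ.one_le
    have hroot : (X ^ ℓ - C a : K[X]).IsRoot b := by simp [hb]
    have hdeg := degree_eq_one_of_irreducible_of_root hirr hroot
    rw [degree_X_pow_sub_C hℓ.pos] at hdeg
    have := hℓ.two_le
    have h1 : ℓ = 1 := by exact_mod_cast hdeg
    omega

theorem RadClosed.finrank_eq_one.{u} {K : Type u} [Field K] (hK : RadClosed K)
    (E : Type u) [Field E] [Algebra K E] [FiniteDimensional K E] [IsGalois K E]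
    (hs : Group.IsSolvable Gal(E/K)) (hc : Tame K (Nat.card Gal(E/K))) :
    Module.finrank K E = 1 :=
  hK.finrank_eq_one_aux (Nat.card Gal(E/K) + 1) E hs hc
    (fun _ _ hd => Nat.lt_succ_of_le (Nat.le_of_dvd Nat.card_pos hd))

theorem RadClosed.perfect {K : Type*} [Field K] (hK : RadClosed K) : PerfectField K := by
  obtain ⟨p, hp⟩ := CharP.exists K
  rcases CharP.char_is_prime_or_zero K p with h | h
  · have : Fact p.Prime := ⟨h⟩
    have : PerfectRing K p := PerfectRing.ofSurjective K p (fun a => hK.root a h.one_le)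
    exact PerfectRing.toPerfectField K p
  · subst h
    have : CharZero K := CharP.charP_to_charZero K
    infer_instance


attribute [local instance] Ideal.Quotient.field in
/-- Specialisation of a solvable Galois extension: a surjection `φ : A → K` from an integrally
closed domain onto a radically closed field extends to the integral closure of `A` in any finite
Galois extension of `Frac A` with solvable (tame) group. -/
theorem RadClosed.exists_hom.{u} {A K L₀ L : Type u} [CommRing A] [IsDomain A]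
    [IsIntegrallyClosed A] [Field K] [Field L₀] [Field L] [Algebra A L₀] [IsFractionRing A L₀]
    [Algebra L₀ L] [Algebra A L] [IsScalarTower A L₀ L] [FiniteDimensional L₀ L]
    [IsGalois L₀ L] (hK : RadClosed K) (φ : A →+* K) (hφ : Function.Surjective φ)
    (hs : Group.IsSolvable Gal(L/L₀)) (hc : Tame K (Nat.card Gal(L/L₀))) :
    ∃ ψ : integralClosure A L →+* K, ψ.comp (algebraMap A (integralClosure A L)) = φ := by
  let B := integralClosure A L
  have hfB : IsFractionRing B L := integralClosure.isFractionRing_of_finite_extension L₀ L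
  let _ : MulSemiringAction Gal(L/L₀) B := IsIntegralClosure.MulSemiringAction A L₀ L B
  have hinv : Algebra.IsInvariant A B Gal(L/L₀) := Algebra.isInvariant_of_isGalois A L₀ L B
  have hcomm : SMulCommClass Gal(L/L₀) A B :=
    ⟨fun g a b => map_smul (galRestrict A L₀ L B g) a b⟩
  have hinj : Function.Injective (algebraMap A B) := by
    have h1 : Function.Injective (algebraMap A L) := by
      rw [IsScalarTower.algebraMap_eq A L₀ L]
      exact (algebraMap L₀ L).injective.comp (IsFractionRing.injective A L₀)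
    have h2 : (algebraMap A L : A → L) = (algebraMap B L : B → L) ∘ (algebraMap A B : A → B) := by
      rw [IsScalarTower.algebraMap_eq A B L]; rfl
    rw [h2] at h1
    exact Function.Injective.of_comp h1
  have : FaithfulSMul A B := (faithfulSMul_iff_algebraMap_injective A B).mpr hinj
  let P := RingHom.ker φ
  have hP : P.IsMaximal := RingHom.ker_isMaximal_of_surjective φ hφ
  obtain ⟨Q, hQ, hQP⟩ := Ideal.exists_maximal_ideal_liesOver_of_isIntegral (S := B) P
  let k := A ⧸ P
  let κ := B ⧸ Q
  let e : k ≃+* K := RingHom.quotientKerEquivOfSurjective hφ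
  have hk : RadClosed k := by
    intro a ha n hn
    obtain ⟨x, hx⟩ := hK (e a) (by simpa using ha) n hn
    refine ⟨e.symm x, ?_⟩
    apply e.injective
    rw [map_pow, RingEquiv.apply_symm_apply, hx]
  have hchk : ∀ p : ℕ, (p : k) = 0 → (p : K) = 0 := by
    intro p hp
    have := congrArg e hp
    rwa [map_natCast, map_zero] at this
  have hpf : PerfectField k := hk.perfect
  have hint : Algebra.IsIntegral k κ := inferInstance
  have halg : Algebra.IsAlgebraic k κ := hint.isAlgebraic
  have hsepk : Algebra.IsSeparable k κ := inferInstance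
  have hnor : Normal k κ := Ideal.Quotient.normal Gal(L/L₀) P Q
  have hgal : IsGalois k κ := { __ := hnor }
  have hfin : Module.Finite k κ := Ideal.Quotient.finite_of_isInvariant Gal(L/L₀) P Q
  have hsurj := Ideal.Quotient.stabilizerHom_surjective Gal(L/L₀) P Q
  have hsk : Group.IsSolvable Gal(κ/k) := Group.isSolvable_of_surjective hsurj
  have hcd : Nat.card Gal(κ/k) ∣ Nat.card Gal(L/L₀) :=
    (Subgroup.card_dvd_of_surjective _ hsurj).trans (Subgroup.card_subgroup_dvd_card _)
  have h1 : Module.finrank k κ = 1 := by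
    refine hk.finrank_eq_one κ hsk ?_
    intro q hq hd
    rcases hc q hq (hd.trans hcd) with ⟨ζ, hz⟩ | hlow
    · left
      refine ⟨e.symm ζ, ?_⟩
      exact (IsPrimitiveRoot.map_iff_of_injective (f := e.symm) e.symm.injective).mpr hz
    · right
      intro p hp h0
      exact hlow p hp (hchk p h0)
  have hbij : Function.Surjective (algebraMap k κ) := by
    have htop : (⊥ : Subalgebra k κ) = ⊤ := Subalgebra.bot_eq_top_of_finrank_eq_one h1
    intro x
    have hmem : x ∈ (⊥ : Subalgebra k κ) := by rw [htop]; exact Algebra.mem_top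
    exact Algebra.mem_bot.mp hmem
  let f : k ≃+* κ := RingEquiv.ofBijective (algebraMap k κ) ⟨(algebraMap k κ).injective, hbij⟩
  refine ⟨(e : k →+* K).comp ((f.symm : κ →+* k).comp (algebraMap B κ)), ?_⟩
  ext a
  have h2 : algebraMap B κ (algebraMap A B a) = f (Ideal.Quotient.mk P a) := rfl
  change e (f.symm (algebraMap B κ (algebraMap A B a))) = φ a
  rw [h2, RingEquiv.symm_apply_apply]
  rfl

/-- If a monic polynomial over an integrally closed domain `A` splits in a finite Galois extension
`L` of `Frac A` with solvable (tame) group, then its image under any surjection `A → K`, `K`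
radically closed, splits. -/
theorem RadClosed.splits_map.{u} {A K L₀ L : Type u} [CommRing A] [IsDomain A]
    [IsIntegrallyClosed A] [Field K] [Field L₀] [Field L] [Algebra A L₀] [IsFractionRing A L₀]
    [Algebra L₀ L] [Algebra A L] [IsScalarTower A L₀ L] [FiniteDimensional L₀ L]
    [IsGalois L₀ L] (hK : RadClosed K) (φ : A →+* K) (hφ : Function.Surjective φ)
    (hs : Group.IsSolvable Gal(L/L₀)) (hc : Tame K (Nat.card Gal(L/L₀)))
    (N : A[X]) (hN : N.Monic) (hsp : (N.map (algebraMap A L)).Splits) :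
    (N.map φ).Splits := by
  obtain ⟨ψ, hψ⟩ := hK.exists_hom (L₀ := L₀) (L := L) φ hφ hs hc
  -- the polynomial splits over the integral closure
  have hNB : (N.map (algebraMap A (integralClosure A L))).Splits := by
    refine Splits.of_splits_map_of_injective (i := algebraMap (integralClosure A L) L)
      (FaithfulSMul.algebraMap_injective (integralClosure A L) L) ?_ ?_
    · rw [Polynomial.map_map, ← IsScalarTower.algebraMap_eq]
      exact hsp
    · intro a ha
      rw [Polynomial.map_map, ← IsScalarTower.algebraMap_eq] at ha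
      have hia : IsIntegral A a := by
        refine ⟨N, hN, ?_⟩
        rw [← eval_map]
        exact isRoot_of_mem_roots ha
      exact ⟨⟨a, hia⟩, rfl⟩
  have := hNB.map ψ
  rw [Polynomial.map_map, hψ] at this
  exact this

theorem RadClosed.splits_map_of_lc.{u} {A K : Type u} [CommRing A] [IsDomain A]
    [IsIntegrallyClosed A] [Field K] (hK : RadClosed K) (φ : A →+* K)
    (hφ : Function.Surjective φ) (F : A[X])
    (hsep : (F.map (algebraMap A (FractionRing A))).Separable)
    (hs : Group.IsSolvable (F.map (algebraMap A (FractionRing A))).Gal)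
    (hc : Tame K (Nat.card (F.map (algebraMap A (FractionRing A))).Gal))
    (hl : φ F.leadingCoeff ≠ 0) : (F.map φ).Splits := by
  let L₀ := FractionRing A
  let L := (F.map (algebraMap A (FractionRing A))).SplittingField
  have hF0 : F ≠ 0 := by
    rintro rfl
    simp at hl
  have hgal : IsGalois L₀ L := IsGalois.of_separable_splitting_field hsep
  have hspl : (F.map (algebraMap A L)).Splits := by
    have := SplittingField.splits (F.map (algebraMap A (FractionRing A)))
    rw [Polynomial.map_map, ← IsScalarTower.algebraMap_eq] at this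
    exact this
  have hinj : Function.Injective (algebraMap A L) := by
    rw [IsScalarTower.algebraMap_eq A L₀ L]
    exact (algebraMap L₀ L).injective.comp (IsFractionRing.injective A L₀)
  have hlL : algebraMap A L F.leadingCoeff ≠ 0 := by
    rw [Ne, map_eq_zero_iff _ hinj, leadingCoeff_eq_zero]
    exact hF0
  have hN := integralNormalization_mul_C_leadingCoeff F
  have hNL : ((integralNormalization F).map (algebraMap A L)).Splits := by
    have h1 := congrArg (Polynomial.map (algebraMap A L)) hN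
    rw [Polynomial.map_mul, map_C, map_scaleRoots _ _ _ hlL] at h1
    have h2 := hspl.scaleRoots (algebraMap A L F.leadingCoeff)
    rw [← h1] at h2
    refine Splits.of_dvd h2 ?_ (Dvd.intro _ rfl)
    rw [h1]
    exact scaleRoots_ne_zero ((Polynomial.map_ne_zero_iff hinj).mpr hF0) _
  have hNφ := hK.splits_map (L₀ := L₀) (L := L) φ hφ hs hc (integralNormalization F)
    (monic_integralNormalization hF0) hNL
  have h1 := congrArg (Polynomial.map φ) hN
  rw [Polynomial.map_mul, map_C, map_scaleRoots _ _ _ hl] at h1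
  have h2 : ((F.map φ).scaleRoots (φ F.leadingCoeff)).Splits := by
    rw [← h1]
    exact hNφ.mul (Splits.C _)
  have h3 := h2.scaleRoots (φ F.leadingCoeff)⁻¹
  rw [← scaleRoots_mul, mul_inv_cancel₀ hl, scaleRoots_one] at h3
  exact h3

theorem bezout_den {R : Type*} [CommRing R] [IsDomain R] [IsGCDMonoid R] (F G : R[X])
    (hF : Irreducible F) (h1 : F.natDegree ≠ 0) (hFG : ¬ F ∣ G) :
    ∃ (A B : R[X]) (r : R), r ≠ 0 ∧ A * F + B * G = C r := by
  let L := FractionRing R
  have hprim := hF.isPrimitive h1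
  have hirr : Irreducible (F.map (algebraMap R L)) :=
    hprim.irreducible_iff_irreducible_map_fraction_map.mp hF
  have hnd : ¬ F.map (algebraMap R L) ∣ G.map (algebraMap R L) :=
    fun h => hFG (hprim.dvd_of_fraction_map_dvd_fraction_map h)
  obtain ⟨a, b, hab⟩ := (hirr.coprime_iff_not_dvd).mpr hnd
  obtain ⟨c, hc, hca⟩ := IsLocalization.integerNormalization_spec (nonZeroDivisors R) a
  obtain ⟨d, hd, hdb⟩ := IsLocalization.integerNormalization_spec (nonZeroDivisors R) b
  set a' := IsLocalization.integerNormalization (nonZeroDivisors R) a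
  set b' := IsLocalization.integerNormalization (nonZeroDivisors R) b
  refine ⟨C d * a', C c * b', c * d, ?_, ?_⟩
  · exact mul_ne_zero (nonZeroDivisors.ne_zero hc) (nonZeroDivisors.ne_zero hd)
  · apply Polynomial.map_injective (algebraMap R L) (IsFractionRing.injective R L)
    rw [Algebra.smul_def, IsScalarTower.algebraMap_apply R L L[X]] at hca hdb
    simp only [Polynomial.map_add, Polynomial.map_mul, Polynomial.map_C, map_mul, hca, hdb]
    change C ((algebraMap R L) d) * (C ((algebraMap R L) c) * a) * map (algebraMap R L) F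
      + C ((algebraMap R L) c) * (C ((algebraMap R L) d) * b) * map (algebraMap R L) G
      = C ((algebraMap R L) c) * C ((algebraMap R L) d)
    linear_combination (C ((algebraMap R L) c) * C ((algebraMap R L) d)) * hab

/-- Zariski density of the rational points of a hypersurface all of whose fibres have points. -/
theorem dense_of_root {K : Type*} [Field K] [Infinite K] {n : ℕ}
    (F : (MvPolynomial (Fin n) K)[X]) (hF : Irreducible F) (h1 : F.natDegree ≠ 0)
    (hroot : ∀ t : Fin n → K, MvPolynomial.eval t F.leadingCoeff ≠ 0 →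
      ∃ x, (F.map (MvPolynomial.eval t)).eval x = 0)
    (G : (MvPolynomial (Fin n) K)[X])
    (hG : ∀ (t : Fin n → K) (x : K), (F.map (MvPolynomial.eval t)).eval x = 0 →
      (G.map (MvPolynomial.eval t)).eval x = 0) : F ∣ G := by
  by_contra hFG
  obtain ⟨A, B, r, hr, hAB⟩ := bezout_den F G hF h1 hFG
  have hF0 : F.leadingCoeff ≠ 0 := by
    rw [Ne, leadingCoeff_eq_zero]
    exact hF.ne_zero
  have hne : r * F.leadingCoeff ≠ 0 := mul_ne_zero hr hF0
  obtain ⟨t, ht⟩ : ∃ t : Fin n → K, MvPolynomial.eval t (r * F.leadingCoeff) ≠ 0 := by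
    by_contra hcon
    push Not at hcon
    apply hne
    apply MvPolynomial.funext
    intro t
    rw [hcon t, map_zero]
  rw [map_mul] at ht
  obtain ⟨x, hx⟩ := hroot t (right_ne_zero_of_mul ht)
  have h2 := congrArg (fun P => (Polynomial.map (MvPolynomial.eval t) P).eval x) hAB
  simp only [Polynomial.map_add, Polynomial.map_mul, Polynomial.map_C, eval_add, eval_mul,
    eval_C, hx, hG t x hx, mul_zero, add_zero] at h2
  exact left_ne_zero_of_mul ht h2.symm

end solvable


end MPb21ca1
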