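import Mathlib

/-!
# Definitions for radically closed fields
-/

namespace MPb21ca1

/-- A field whose multiplicative group is divisible. -/
def RadClosed (K : Type*) [Field K] : Prop :=
  ∀ a : K, a ≠ 0 → ∀ n : ℕ, 1 ≤ n → ∃ x : K, x ^ n = a

/-- For each prime `q` dividing `m`: `K` contains a primitive `q`-th root of unity, or `q` is
smaller than every prime `p` that vanishes in `K` (always true in characteristic zero). -/
def Tame (K : Type*) [Field K] (m : ℕ) : Prop :=
  ∀ q : ℕ, q.Prime → q ∣ m →
    (∃ ζ : K, IsPrimitiveRoot ζ q) ∨ ∀ p : ℕ, p.Prime → (p : K) = 0 → q < p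

/-- The `K`-points of the `K`-algebra `R` are dense: every nonzero element of `R` is nonzero at
some `K`-point. -/
def DensePoints (K : Type*) [Field K] (R : Type*) [CommRing R] [Algebra K R] : Prop :=
  ∀ r : R, r ≠ 0 → ∃ φ : R →ₐ[K] K, φ r ≠ 0

end MPb21ca1
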