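import Pool.Agent.Lib.MP_b21ca1_al.Basic

/-!
# Density of rational points on varieties uniformised by radicals

`RadClosed.densePoints`: over a radically closed field `K` the class of `K`-domains with dense
`K`-points is closed under passing to finitely generated subalgebras of solvable (tame) Galois
extensions of the fraction field.
-/

namespace MPb21ca1

open Polynomial


theorem densePoints_mvPolynomial (K : Type*) [Field K] [Infinite K] (n : ℕ) :
    DensePoints K (MvPolynomial (Fin n) K) := by
  intro r hr
  obtain ⟨t, ht⟩ : ∃ t : Fin n → K, MvPolynomial.eval t r ≠ 0 := by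
    by_contra hcon
    push Not at hcon
    apply hr
    apply MvPolynomial.funext
    intro t
    rw [hcon t, map_zero]
  refine ⟨MvPolynomial.aeval t, ?_⟩
  rwa [MvPolynomial.aeval_eq_eval]

theorem exists_common_denominator {A L : Type*} [CommRing A] [IsDomain A] [Field L] [Algebra A L]
    [Algebra.IsAlgebraic A L] (S : Finset L) :
    ∃ a : A, a ≠ 0 ∧ ∀ x ∈ S, IsIntegral A (a • x) := by
  classical
  induction S using Finset.induction_on with
  | empty => exact ⟨1, one_ne_zero, by simp⟩
  | insert x S hx ih =>
    obtain ⟨a, ha, hS⟩ := ih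
    obtain ⟨b, hb, hbx⟩ := (Algebra.IsAlgebraic.isAlgebraic (R := A) x).exists_integral_multiple
    refine ⟨a * b, mul_ne_zero ha hb, ?_⟩
    intro y hy
    rcases Finset.mem_insert.mp hy with rfl | hy
    · rw [mul_smul]
      exact hbx.smul a
    · rw [mul_comm, mul_smul]
      exact (hS y hy).smul b


/-- Permanence: if `A` is an integrally closed domain over the radically closed field `K` with
dense `K`-points, and `L` is a finite Galois extension of `Frac A` with solvable (tame) group, then
every finitely generated `K`-subalgebra of `L` has dense `K`-points. -/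
theorem RadClosed.densePoints.{u} {K A L₀ L : Type u} [Field K] (hK : RadClosed K)
    [CommRing A] [IsDomain A] [IsIntegrallyClosed A] [Algebra K A] (hA : DensePoints K A)
    [Field L₀] [Field L] [Algebra A L₀] [IsFractionRing A L₀]
    [Algebra L₀ L] [Algebra A L] [IsScalarTower A L₀ L] [FiniteDimensional L₀ L]
    [IsGalois L₀ L] (hs : Group.IsSolvable Gal(L/L₀)) (hc : Tame K (Nat.card Gal(L/L₀)))
    [Algebra K L] [IsScalarTower K A L] (R : Subalgebra K L) (hR : R.FG) :
    DensePoints K R := by
  classical
  intro r hr
  obtain ⟨S, hS⟩ := hR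
  have halgA : Algebra.IsAlgebraic A L := by
    have h1 : Algebra.IsAlgebraic L₀ L := inferInstance
    exact (IsFractionRing.comap_isAlgebraic_iff (A := A) (K := L₀) (C := L)).mpr h1
  obtain ⟨a, ha, hSa⟩ := exists_common_denominator (A := A) (insert ((r : L)⁻¹) S)
  obtain ⟨φ₀, hφ₀⟩ := hA a ha
  have hsurj : Function.Surjective (φ₀ : A →+* K) := by
    intro c
    exact ⟨algebraMap K A c, by simp⟩
  obtain ⟨ψ, hψ⟩ := hK.exists_hom (L₀ := L₀) (L := L) (φ₀ : A →+* K) hsurj hs hc
  let B := integralClosure A L
  let a' : B := algebraMap A B a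
  have hψa : ψ a' = φ₀ a := by
    have := congrArg (fun f : A →+* K => f a) hψ
    exact this
  have hinjL : Function.Injective (algebraMap A L) := by
    rw [IsScalarTower.algebraMap_eq A L₀ L]
    exact (algebraMap L₀ L).injective.comp (IsFractionRing.injective A L₀)
  have haL : algebraMap B L a' ≠ 0 := by
    change algebraMap A L a ≠ 0
    rw [Ne, map_eq_zero_iff _ hinjL]
    exact ha
  let B' := Localization.Away a'
  have hu1 : IsUnit (algebraMap B L a') := isUnit_iff_ne_zero.mpr haL
  have hu2 : IsUnit (ψ a') := isUnit_iff_ne_zero.mpr (by rw [hψa]; exact hφ₀)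
  let i : B' →+* L := IsLocalization.Away.lift a' hu1
  let ψ' : B' →+* K := IsLocalization.Away.lift a' hu2
  have hi : ∀ b : B, i (algebraMap B B' b) = (b : L) := fun b =>
    IsLocalization.Away.lift_eq a' hu1 b
  have hψ' : ∀ b : B, ψ' (algebraMap B B' b) = ψ b := fun b =>
    IsLocalization.Away.lift_eq a' hu2 b
  have hiinj : Function.Injective i := by
    rw [injective_iff_map_eq_zero]
    intro z hz
    obtain ⟨b, m, hbm⟩ := IsLocalization.exists_mk'_eq (Submonoid.powers a') z
    rw [← hbm] at hz ⊢
    have h1 : i (algebraMap B B' b) = 0 := by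
      have := IsLocalization.mk'_spec B' b m
      rw [← this, map_mul, hz, zero_mul]
    rw [hi] at h1
    have hb0 : b = 0 := Subtype.ext h1
    rw [hb0, IsLocalization.mk'_zero]
  -- elements with denominator a
  have hmem : ∀ x : L, IsIntegral A (a • x) → x ∈ i.range := by
    intro x hx
    let b : B := ⟨a • x, hx⟩
    refine ⟨IsLocalization.mk' B' b ⟨a', Submonoid.mem_powers a'⟩, ?_⟩
    have h1 := IsLocalization.mk'_spec B' b ⟨a', Submonoid.mem_powers a'⟩
    have h2 := congrArg i h1
    rw [map_mul, hi, hi] at h2
    have h3 : (b : L) = algebraMap B L a' * x := by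
      change a • x = algebraMap A L a * x
      rw [Algebra.smul_def]
    rw [h3, mul_comm] at h2
    exact mul_left_cancel₀ haL h2
  have hconst : ∀ c : K, i (algebraMap B B' (algebraMap A B (algebraMap K A c)))
      = algebraMap K L c := by
    intro c
    rw [hi]
    change algebraMap A L (algebraMap K A c) = algebraMap K L c
    rw [← IsScalarTower.algebraMap_apply]
  have hRle : ∀ x ∈ R, x ∈ i.range := by
    intro x hx
    rw [← hS] at hx
    induction hx using Algebra.adjoin_induction with
    | mem x hx => exact hmem x (hSa x (Finset.mem_insert_of_mem hx))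
    | algebraMap c => exact ⟨_, hconst c⟩
    | add x y _ _ hx hy => exact add_mem hx hy
    | mul x y _ _ hx hy => exact mul_mem hx hy
  have hrinv : ((r : L)⁻¹) ∈ i.range := hmem _ (hSa _ (Finset.mem_insert_self _ _))
  let e : B' ≃+* i.range := RingEquiv.ofBijective i.rangeRestrict
    ⟨fun x y hxy => hiinj (congrArg Subtype.val hxy), i.rangeRestrict_surjective⟩
  let inc : R →+* i.range :=
    { toFun := fun x => ⟨x, hRle x x.2⟩
      map_one' := rfl
      map_zero' := rfl
      map_add' := fun _ _ => rfl
      map_mul' := fun _ _ => rfl }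
  let φ : R →+* K := ψ'.comp ((e.symm : i.range →+* B').comp inc)
  have hcomm : ∀ c : K, φ (algebraMap K R c) = c := by
    intro c
    have h1 : inc (algebraMap K R c)
        = e (algebraMap B B' (algebraMap A B (algebraMap K A c))) := by
      apply Subtype.ext
      change algebraMap K L c = i (algebraMap B B' (algebraMap A B (algebraMap K A c)))
      rw [hconst]
    change ψ' (e.symm (inc (algebraMap K R c))) = c
    rw [h1, RingEquiv.symm_apply_apply, hψ']
    have h2 := congrArg (fun f : A →+* K => f (algebraMap K A c)) hψ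
    change ψ (algebraMap A B (algebraMap K A c)) = φ₀ (algebraMap K A c) at h2
    rw [h2, AlgHom.commutes]
    rfl
  refine ⟨{ φ with commutes' := hcomm }, ?_⟩
  change ψ' (e.symm (inc r)) ≠ 0
  intro h0
  have hr0 : (r : L) ≠ 0 := fun h => hr (Subtype.ext h)
  have h1 : inc r * ⟨(r : L)⁻¹, hrinv⟩ = 1 := Subtype.ext (mul_inv_cancel₀ hr0)
  have h2 := congrArg (fun z => ψ' (e.symm z)) h1
  simp only [map_mul, map_one] at h2
  rw [h0, zero_mul] at h2
  exact zero_ne_one h2

end MPb21ca1
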